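import Pool.Agent.Lib.MP_8865d3_nt.Ae.Defs
import Pool.Agent.Lib.MP_8865d3_nt.Ai.Zd
import Pool.Agent.Lib.MP_651af7_nt.Sc.Defs
import Pool.Agent.Lib.MP_651af7_nt.Et.Base

/-! Reduction to finitely many charts. -/

namespace Pool.Agent.Lib.MP_8865d3_nt.Ae

open MvPolynomial Matrix Pool.Agent.Lib.MP_651af7_nt Av Bx Et Sc Ai Lr
open Es (mn)

set_option linter.unusedSectionVars false

variable {k L ι T β : Type} [Field k] [Field L] [Algebra k L] [Fintype ι] [Fintype T] [Fintype β]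
  {N n b d e : ℕ} {I' : Ideal (MvPolynomial (Fin N) L)} {J : Ideal (MvPolynomial ι L)}
  {B : Fin N → Fin (n + 1) → MvPolynomial ι L}

theorem at_le {R : Type} [CommRing R] [Algebra L R] {M : Ideal R} {p : ι → R}
    (hp : ∀ P ∈ J, aeval p P ∈ M) (y : Fin (n + 1) → R) :
    pr J n ≤ M.comap (aeval (Sum.elim p y) : _ →ₐ[L] R) :=
  Ideal.map_le_iff_le_comap.2 fun Q hQ => by
    rw [Ideal.mem_comap, Ideal.mem_comap, aeval_rename]
    exact hp Q hQ

/-- The matrix of a birational parametrisation by linear forms has full rank. -/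
theorem mn_notMem (hJ : J.IsPrime) {φ : ι → MvPolynomial (Fin N) L}
    {χ : Fin (n + 1) → MvPolynomial (Fin N) L} (hb : Bir I' J φ χ fun i => lin (B i)) :
    ∃ u, mn (of B) u ∉ J := by
  by_contra! h
  have := pr_prime hJ n
  obtain ⟨a, t, hz⟩ : ∃ a t, gp (pr J n) = Sum.elim a t := ⟨_, _, (Sum.elim_comp_inl_inr _).symm⟩
  have hg : ∀ p, aeval (Sum.elim a t) p = 0 ↔ p ∈ pr J n := fun p => hz ▸ aeval_gp_eq_zero
  have ha : ∀ Q ∈ J, aeval a Q = 0 := fun Q hQ => by
    simpa only [aeval_rename, Sum.elim_comp_inl] using (hg _).2 (inl_mem'.2 hQ)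
  obtain ⟨w, hw, j₀, h0⟩ := Fintype.not_linearIndependent_iff.1 fun hl :
      LinearIndependent _ fun j s => aeval a (B s j) => minors_ne_zero hl (funext fun S => by
    rw [Pi.zero_apply, ← ha _ (h S), mn, AlgHom.map_det, ← det_transpose]
    rfl)
  have h1 : ∀ s, ∑ j, aeval a (B s j) * w j = 0 := fun s => by
    simpa [mul_comm] using congrFun hw s
  obtain ⟨⟨j₁, h2⟩, h3⟩ := hb.id₂
  have h4 := fun y j j' => Ideal.mem_bot.1 (Ideal.mem_comap.1 (at_le (M := ⊥) ha y (h3 j j')))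
  rw [← hg] at h2
  simp only [map_sub, map_mul, comp_aeval_apply, ev_lin, aeval_X, Sum.elim_inr] at h2 h4
  have h5 := h4 (t + w)
  simp only [Pi.add_apply, mul_add, Finset.sum_add_distrib, h1, add_zero] at h5
  have h6 : aeval (fun s => ∑ j, aeval a (B s j) * t j) (χ j₀) ≠ 0 := fun e =>
    mul_ne_zero h2 h0 (by linear_combination h5 j₁ j₀ - h4 t j₁ j₀ + w j₁ * e)
  have h7 : ∀ j, t j * w j₀ = w j * t j₀ := fun j => mul_left_cancel₀ h6 (by
    linear_combination w j₀ * h4 t j₀ j + t j₀ * (h5 j j₀ - h4 t j j₀))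
  obtain ⟨s, hs⟩ := hb.id.1
  refine hs (at_le hb.map₁ χ ((hg _).1 (mul_right_cancel₀ h0 ?_)))
  simp only [ev_lin, Finset.sum_mul, mul_assoc, h7]
  simp only [← mul_assoc, ← Finset.sum_mul, h1, zero_mul]

theorem at_trans {τ : Type} [Fintype τ] (hJ : J.IsPrime) {E E' : Set (MvPolynomial (ι ⊕ τ) L)}
    (h : ∀ P ∈ E, ∀ t, ∃ (c : MvPolynomial ι L) (d m : ℕ), c.IsHomogeneous d ∧ c ∉ J ∧
      rename Sum.inl c * X (.inr t) ^ m * P ∈ J.map (rename Sum.inl) ⊔ Ideal.span E')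
    {p : MvPolynomial (ι ⊕ τ) L} (hp : Sat J E p) : Sat J E' p := by
  classical
  obtain ⟨c, d, m, h1, h2, h3⟩ := hp
  have h0 := (Ideal.ne_top_iff_one _).1 hJ.ne_top
  have h4 : ∀ t, ∀ P ∈ J.map (rename Sum.inl) ⊔ Ideal.span E, ∃ (c : MvPolynomial ι L) (d m : ℕ),
      c.IsHomogeneous d ∧ c ∉ J ∧
      rename Sum.inl c * X (.inr t) ^ m * P ∈ J.map (rename Sum.inl) ⊔ Ideal.span E' := by
    intro t P hP
    obtain ⟨x, hx, y, hy, rfl⟩ := Submodule.mem_sup.1 hP
    suffices ∃ (c : MvPolynomial ι L) (d m : ℕ), c.IsHomogeneous d ∧ c ∉ J ∧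
        rename Sum.inl c * X (.inr t) ^ m * y ∈ J.map (rename Sum.inl) ⊔ Ideal.span E' from
      this.imp fun _ => .imp fun _ => .imp fun _ => .imp_right <| .imp_right fun h => by
        rw [mul_add]
        exact add_mem (Ideal.mem_sup_left (Ideal.mul_mem_left _ _ hx)) h
    clear hP
    induction hy using Submodule.span_induction with
    | mem y hy => exact h y hy t
    | zero => exact ⟨1, 0, 0, isHomogeneous_one _ _, h0, by simp⟩
    | add y z _ _ hy hz =>
      obtain ⟨c, d, m, h1, h2, h3⟩ := hy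
      obtain ⟨c', d', m', h1', h2', h3'⟩ := hz
      refine ⟨c * c', _, m + m', h1.mul h1', fun e => (hJ.mem_or_mem e).elim h2 h2', ?_⟩
      have := add_mem (Ideal.mul_mem_left _ (rename Sum.inl c' * X (.inr t) ^ m') h3)
        (Ideal.mul_mem_left _ (rename Sum.inl c * X (.inr t) ^ m) h3')
      rwa [show _ + _ = rename Sum.inl (c * c') * X (.inr t) ^ (m + m') * (y + z) by
        rw [map_mul]; ring] at this
    | smul r y _ hy =>
      obtain ⟨c, d, m, h1, h2, h3⟩ := hy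
      exact ⟨c, d, m, h1, h2, by rw [smul_eq_mul, mul_left_comm]; exact Ideal.mul_mem_left _ _ h3⟩
  choose c' d' m' h5 h6 h7 using fun t => h4 t _ (h3 t)
  refine ⟨c * ∏ t, c' t, _, m + ∑ t, m' t, h1.mul (.prod _ _ _ fun t _ => h5 t), fun e =>
    (hJ.mem_or_mem e).elim h2 fun e => ?_, fun t => ?_⟩
  · obtain ⟨t, -, e⟩ := Ideal.IsPrime.prod_mem_iff.1 e
    exact h6 t e
  · have := Ideal.mul_mem_left _ (rename Sum.inl (∏ s ∈ Finset.univ.erase t, c' s) *
      X (.inr t) ^ ∑ s ∈ Finset.univ.erase t, m' s) (h7 t)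
    rw [← Finset.mul_prod_erase _ _ (Finset.mem_univ t),
      ← Finset.add_sum_erase _ _ (Finset.mem_univ t), map_mul, map_mul]
    exact (congrArg (· ∈ _) (by ring)).mp this

theorem at_cramer (v : Fin (n + 1) → Fin N) (t : Fin (n + 1)) :
    rename Sum.inl (mn (of B) v) * X (.inr t) =
      ∑ j, rename Sum.inl (((of B).submatrix v id).adjugate t j) * lin (B (v j)) := by
  have h := fun s => congrFun₂ (adjugate_mul ((of B).submatrix v id)) t s
  simp only [mul_apply, submatrix_apply, of_apply, id] at h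
  simp only [Ai.lin, Finset.mul_sum, ← mul_assoc, ← map_mul]
  rw [Finset.sum_comm]
  simp only [← Finset.sum_mul, ← map_sum, h]
  rw [Finset.sum_eq_single t (fun s _ e => by simp [one_apply_ne e.symm]) (by simp)]
  simp [mn]

/-- Finitely many charts that cover the variety give the same ideal sheaf as all charts. -/
theorem Mono.atlas [IsAlgClosed L] [CharZero L] {κ : Type} [Fintype κ] (hI' : Var I')
    (h0 : ∃ b, X b ∉ I') (hJ : J.IsPrime) (hB : ∀ i j, (B i j).IsHomogeneous b)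
    (hm : ∀ P ∈ I', aeval (fun i => lin (B i)) P ∈ pr J n) (hp : ∃ u, mn (of B) u ∉ J)
    {f : (Fin N → L) → κ → L} {π : T → κ → MvPolynomial (Fin N) L} (h1 : ∀ t, Chart I' f d (π t))
    (h2 : ∀ y ≠ 0, (∀ P ∈ I', eval y P = 0) → ∃ t l, eval y (π t l) ≠ 0)
    {F : β → MvPolynomial κ k} (hF : ∀ l, (F l).IsHomogeneous e)
    (h : Mono J (aeval (fun i => lin (B i)) '' pull I' f F)) :
    Mono J (Set.range fun p : T × β => aeval (fun i => lin (B i)) (aeval (π p.1) (F p.2))) := by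
  obtain ⟨q, s, u, δ, m, h3, h4, h5⟩ := h
  refine ⟨q, s, u, δ, m, h3, fun i => at_trans hJ ?_ (h4 i), ?_⟩
  swap
  · rintro _ ⟨p, rfl⟩
    exact h5 _ ⟨_, ⟨d, _, _, (h1 _).hom, (h1 _).val, rfl⟩, rfl⟩
  rintro _ ⟨_, ⟨d', ρ, l, r1, r2, rfl⟩, rfl⟩ t
  obtain ⟨v, hv⟩ := hp
  let C := ((pr J n ⊔ Ideal.span (Set.range fun p : T × β =>
    aeval (fun i => lin (B i)) (aeval (π p.1) (F p.2)))).colon
      {aeval (fun i => lin (B i)) (aeval ρ (F l))})
  have h6 : ∀ a, lin (B a) ∈ C.radical := fun a => by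
    have h7 : X a ∈ (C.comap (aeval fun i => lin (B i) : _ →ₐ[L] _)).radical := by
      rw [← vanishingIdeal_zeroLocus_eq_radical (K := L), mem_vanishingIdeal_iff]
      intro z hz
      by_contra g
      obtain ⟨t, j, g⟩ := h2 z (fun g' => g (by simp [g'])) fun P hP => hz P
        (Submodule.mem_colon_singleton.2 (Ideal.mul_mem_right _ _ (Ideal.mem_sup_left (hm P hP))))
      refine pow_ne_zero e g ((map_pow _ _ _).symm.trans (hz (π t j ^ e) ?_))
      have h8 : π t j ^ e * aeval ρ (F l) - ρ j ^ e * aeval (π t) (F l) ∈ I' := by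
        rw [← Ideal.Quotient.eq, ← Ideal.Quotient.mkₐ_eq_mk k]
        simp only [map_mul, map_pow, comp_aeval_apply]
        rw [← aeval_mul_of_hom (hF l), ← aeval_mul_of_hom (hF l)]
        congr 2
        funext i
        rw [← map_mul, ← map_mul, mul_comm (ρ j)]
        exact Ideal.Quotient.eq.2 ((h1 t).prop hI' h0 ⟨r1, r2⟩ j i)
      have h9 := hm _ h8
      rw [map_sub, map_mul, map_mul] at h9
      exact Submodule.mem_colon_singleton.2 ((Submodule.sub_mem_iff_left _ (Ideal.mem_sup_right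
        (Ideal.mul_mem_left _ _ (Ideal.subset_span (Set.mem_range_self (t, l)))))).1
        (Ideal.mem_sup_left h9))
    simpa only [← Ideal.comap_radical, Ideal.mem_comap, aeval_X] using h7
  have h7 : rename Sum.inl (mn (of B) v) * X (.inr t) ∈ C.radical := by
    rw [at_cramer]
    exact Ideal.sum_mem _ fun j _ => Ideal.mul_mem_left _ _ (h6 (v j))
  obtain ⟨M, hM⟩ := h7
  refine ⟨mn (of B) v ^ M, _, M, IsHomogeneous.pow (det_whom (w := 1) (δ := fun _ => b)
    fun j a => hB (v j) a) M, fun e => hv (hJ.mem_of_pow_mem _ e), ?_⟩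
  rw [map_pow, ← mul_pow]
  exact Submodule.mem_colon_singleton.1 hM

end Pool.Agent.Lib.MP_8865d3_nt.Ae
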