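import Pool.Agent.Lib.MP_8865d3_nt.Ai.Defs

/-! Ideal sheaves on the generic fibre that are generated by products of linear forms. -/

namespace Pool.Agent.Lib.MP_8865d3_nt.Ae

open MvPolynomial Pool.Agent.Lib.MP_8865d3_nt.Ai

variable {L : Type} [Field L] {ι τ : Type} [Fintype τ]

/-- On the generic fibre over the variety of `J`, `p` is a section of the ideal sheaf generated by
`E`. -/
def Sat (J : Ideal (MvPolynomial ι L)) (E : Set (MvPolynomial (ι ⊕ τ) L))
    (p : MvPolynomial (ι ⊕ τ) L) : Prop :=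
  ∃ (c : MvPolynomial ι L) (d m : ℕ), c.IsHomogeneous d ∧ c ∉ J ∧
    ∀ t, rename Sum.inl c * X (.inr t) ^ m * p ∈ J.map (rename Sum.inl) ⊔ Ideal.span E

/-- On the generic fibre over the variety of `J`, the ideal sheaf generated by `E` is generated by
products of linear forms. -/
def Mono (J : Ideal (MvPolynomial ι L)) (E : Set (MvPolynomial (ι ⊕ τ) L)) : Prop :=
  ∃ (q s : ℕ) (u : Fin q → τ → MvPolynomial ι L) (d : Fin q → ℕ) (m : Fin s → Fin q → ℕ),
    (∀ j t, (u j t).IsHomogeneous (d j)) ∧ (∀ i, Sat J E (∏ j, lin (u j) ^ m i j)) ∧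
    ∀ P ∈ E, Sat J (Set.range fun i => ∏ j, lin (u j) ^ m i j) P

end Pool.Agent.Lib.MP_8865d3_nt.Ae
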