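import Pool.Agent.Lib.MP_8865d3_nt.Ai.Ifc
import Pool.Agent.Lib.MP_651af7_nt.Et.Cov

/-! The inequality for valuations along an unramified map. -/

namespace Pool.Agent.Lib.MP_8865d3_nt.Ae

open MvPolynomial Pool.Agent.Lib.MP_651af7_nt Av Bx Et Ai Lr

open WithZero Matrix

theorem hv_ring {K E : Type} [Field K] [Field E] [Algebra K E] (v : Valuation E ℤᵐ⁰)
    (hv : ∀ c : K, v (algebraMap K E c) ≤ 1) :
    ∃ (O : Type) (_ : CommRing O) (_ : Algebra K O) (R : Type) (_ : Field R) (_ : Algebra K R)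
      (ι : O →ₐ[K] E) (ρ : O →ₐ[K] R), Function.Injective ι ∧ (∀ z, v z ≤ 1 ↔ ∃ o, ι o = z) ∧
      ∀ o, ρ o ≠ 0 → v (ι o) = 1 := by
  let : Algebra K v.valuationSubring :=
    ((algebraMap K E).codRestrict v.valuationSubring hv).toAlgebra
  let : Algebra K (IsLocalRing.ResidueField v.valuationSubring) :=
    ((IsLocalRing.residue _).comp (algebraMap K v.valuationSubring)).toAlgebra
  refine ⟨v.valuationSubring, inferInstance, inferInstance, IsLocalRing.ResidueField _,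
    inferInstance, inferInstance, ⟨v.valuationSubring.subtype, fun _ => rfl⟩,
    ⟨IsLocalRing.residue _, fun _ => rfl⟩, Subtype.val_injective,
    fun z => ⟨fun h => ⟨⟨z, h⟩, rfl⟩, fun ⟨o, h⟩ => h ▸ o.2⟩, fun o h => ?_⟩
  obtain ⟨o', e⟩ := ((IsLocalRing.residue_ne_zero_iff_isUnit o).1 h).exists_right_inv
  have h1 : v o * v o' = 1 := by
    rw [← map_mul, ← MulMemClass.coe_mul, e, OneMemClass.coe_one, map_one]
  exact le_antisymm o.2 (h1.ge.trans (mul_le_of_le_one_right' o'.2))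

theorem hv_dP {K R R' σ : Type} [Field K] [CommRing R] [CommRing R'] [Algebra K R] [Algebra K R']
    [Fintype σ] (f : R →ₐ[K] R') (x w : σ → R) (P : MvPolynomial σ K) :
    dP (fun a => f (x a)) (fun a => f (w a)) P = f (dP x w P) := by
  simp only [dP_eq_sum, map_sum, map_mul, aeval_hom]

theorem hv_lin {K R σ β : Type} [Field K] [CommRing R] [Algebra K R] [Fintype σ] [Fintype β]
    (x : σ → R) (c : β → R) (w : β → σ → R) (P : MvPolynomial σ K) :
    dP x (fun a => ∑ l, c l * w l a) P = ∑ l, c l * dP x (w l) P := by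
  simp only [dP_eq_sum, Finset.mul_sum]
  exact Finset.sum_comm.trans (Finset.sum_congr rfl fun _ _ => Finset.sum_congr rfl fun _ _ =>
    mul_left_comm _ _ _)

variable {K ν κ T : Type} [Field K] [CharZero K] [Fintype ν] [Fintype κ]
  {I₁ : Ideal (MvPolynomial ν K)} {I₂ : Ideal (MvPolynomial κ K)} {d g : ℕ}
  {π : T → κ → MvPolynomial ν K}

omit [Fintype κ] in
theorem hv_ind (h : Cov I₁ I₂ d π) {R : Type} [Field R] [Algebra K R] {y : ν → R} {i : ν}
    (hi : y i = 1) (hy : ∀ P ∈ I₁, aeval y P = 0) {t : T} {l : κ} (hl : aeval y (π t l) ≠ 0)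
    {b : Fin (g + 1) → ν → R} (hb : ∀ j, ∀ P ∈ I₁, dP y (b j) P = 0) {S : Fin (g + 1) → ν}
    (hS : ∀ j m, b j (S m) = if j = m then 1 else 0) :
    LinearIndependent R fun j s => dP y (b j) (π t s) := by
  have := charZero_of_injective_algebraMap (algebraMap K R).injective
  refine Fintype.linearIndependent_iff.2 fun c hc m => ?_
  have h1 : ∀ s, dP y (fun a => ∑ j, c j * b j a) (π t s) = 0 := fun s => by
    simpa only [hv_lin, Finset.sum_apply, Pi.smul_apply, smul_eq_mul, Pi.zero_apply] using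
      congrFun hc s
  have h2 := h.inj R y (fun a => ∑ j, c j * b j a) t l hy hl (mem_tsp.2 fun P hP => by
    simp only [hv_lin, hb _ P hP, mul_zero, Finset.sum_const_zero])
    (fun _ _ => by rw [h1, h1, zero_mul, zero_mul]) i
  simp only [hi, mul_one] at h2
  have h3 := h1 l
  rw [funext h2, ← funext fun a => smul_eq_mul (∑ j, c j * b j i) (y a), ← Pi.smul_def, dP_smul,
    dP_self (h.hom t l)] at h3
  have h4 := h2 (S m)
  rw [(mul_eq_zero.1 h3).resolve_right (mul_ne_zero (Nat.cast_ne_zero.2 d.succ_ne_zero) hl)] at h4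
  simpa [hS] using h4

theorem hv_key (h : Cov I₁ I₂ d π) {E O R : Type} [Field E] [CommRing O] [Field R] [Algebra K E]
    [Algebra K O] [Algebra K R] {v : Valuation E ℤᵐ⁰} {ι : O →ₐ[K] E} {ρ : O →ₐ[K] R}
    (h1 : Function.Injective ι) (h2 : ∀ z, v z ≤ 1 ↔ ∃ o, ι o = z)
    (h3 : ∀ o, ρ o ≠ 0 → v (ι o) = 1) {y : ν → O} {i : ν} (hi : y i = 1)
    (hy : ∀ P ∈ I₁, aeval y P = 0) {t : T} {l : κ} (hl : ρ (aeval y (π t l)) ≠ 0)
    {r : Fin (g + 1) → ν → E} (hr : ∀ j, ∀ P ∈ I₁, dP (fun a => ι (y a)) (r j) P = 0)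
    (S' : Fin (g + 1) → ν) :
    ∃ S, v (minors r S') ≤ v (minors (fun j s => dP (fun a => ι (y a)) (r j) (π t s)) S) := by
  classical
  have : Nonempty ν := ⟨i⟩
  obtain ⟨S₀, h0⟩ := Finite.exists_max fun S => v (minors r S)
  by_cases hz : minors r S₀ = 0
  · exact ⟨fun _ => l, (h0 S').trans (by rw [hz, map_zero]; exact zero_le)⟩
  obtain ⟨N, hN⟩ : ∃ N, N = Matrix.of fun j m => r j (S₀ m) := ⟨_, rfl⟩
  have hd : N.det = minors r S₀ := hN ▸ rfl
  have hu : IsUnit N.det := (hd ▸ hz : N.det ≠ 0).isUnit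
  have h4 : ∀ j a, ∃ o, ι o = ∑ m, N⁻¹ j m * r m a := fun j a => by
    have a1 : N.det * ∑ m, N⁻¹ j m * r m a = minors r (Function.update S₀ j a) := by
      refine (congrFun (det_smul_inv_mulVec_eq_cramer N (fun m => r m a) hu) j).trans ?_
      rw [cramer_apply, minors]
      refine congrArg _ (Matrix.ext fun p q => ?_)
      by_cases e : q = j <;> simp [e, hN]
    have a2 := h0 (Function.update S₀ j a)
    rw [← a1, map_mul, hd] at a2
    exact (h2 _).1 ((mul_le_iff_le_one_right ((v.pos_iff).2 hz)).1 a2)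
  choose b hb using h4
  obtain ⟨S, hS⟩ := Function.ne_iff.1 (minors_ne_zero (hv_ind h (y := fun a => ρ (y a)) (i := i)
    (by rw [hi, map_one]) (fun P hP => by rw [aeval_hom, hy P hP, map_zero]) (t := t) (l := l)
    (by rwa [aeval_hom]) (b := fun j a => ρ (b j a)) (fun j P hP => by
      have a1 : ι (dP y (b j) P) = ι 0 := by
        simp only [← hv_dP, hb, hv_lin, hr _ P hP, mul_zero, Finset.sum_const_zero, map_zero]
      rw [hv_dP, h1 a1, map_zero])
    (S := S₀) fun j m => by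
      have a1 : ι (b j (S₀ m)) = ι (if j = m then 1 else 0) := by
        have a2 := congrFun (congrFun (nonsing_inv_mul N hu) j) m
        rw [mul_apply, one_apply] at a2
        rw [hb, apply_ite ι, map_one, map_zero, ← a2, hN]
        rfl
      rw [h1 a1, apply_ite ρ, map_one, map_zero]))
  simp only [hv_dP] at hS
  have h5 := h3 (minors (fun j s => dP y (b j) (π t s)) S)
    ((map_minors (ρ : O →+* R) _ S).trans_ne hS)
  have h6 : ∀ j, r j = fun a => ∑ m, N j m * ι (b m a) := fun j => funext fun a => by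
    have a1 := congrFun (mulVec_mulVec (fun m => r m a) N N⁻¹) j
    rw [mul_nonsing_inv N hu, one_mulVec] at a1
    simp only [hb]
    exact a1.symm
  refine ⟨S, (h0 S').trans_eq ?_⟩
  have h7 : (fun j s => dP (fun a => ι (y a)) (r j) (π t s)) =
      fun j s => ∑ m, N j m * ι (dP y (b m) (π t s)) := by
    funext j s
    rw [h6 j]
    simp only [hv_lin, hv_dP]
  rw [h7, minors_mul, map_mul, hd]
  exact (mul_one _).symm.trans (congrArg _ (h5.symm.trans
    (congrArg v (map_minors (ι : O →+* E) _ S))))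

theorem hv_cov {k K ν κ T β γ : Type} [Field k] [Field K] [CharZero K] [Algebra k K] [Fintype ν]
    [Fintype κ] {I₁ : Ideal (MvPolynomial ν K)} {I₂ : Ideal (MvPolynomial κ K)}
    {I : Ideal (MvPolynomial κ k)} {d g e e' : ℕ} {π : T → κ → MvPolynomial ν K}
    (h : Cov I₁ I₂ d π) (hp : ∀ t t' i j, π t i * π t' j - π t j * π t' i ∈ I₁)
    (hI₁ : ∀ P ∈ I₁, ∀ d, homogeneousComponent d P ∈ I₁)
    (hd : ∀ t, (∃ l, π t l ∉ I₁) → ∀ (P : MvPolynomial κ k) m, P.IsHomogeneous m →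
      (aeval (π t) P ∈ I₁ ↔ P ∈ I)) {F : β → MvPolynomial κ k} {G : γ → MvPolynomial κ k}
    (hF : ∀ l, (F l).IsHomogeneous e) (hG : ∀ l, (G l).IsHomogeneous e') (H : HV I g F G) :
    HV I₁ g (fun p : T × β => aeval (π p.1) (F p.2)) fun p : T × γ => aeval (π p.1) (G p.2) := by
  intro E _ _ η hη v hv l₁ θ hθ S'
  let : Algebra k E := ((algebraMap K E).comp (algebraMap k K)).toAlgebra
  have : IsScalarTower k K E := .of_algebraMap_eq fun _ => rfl
  obtain ⟨a₀, ha₀⟩ : ∃ a, η a ≠ 0 := by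
    by_contra! hc
    obtain ⟨t, l, h1⟩ := h.ex
    have h2 := aeval_mul_of_hom (h.hom t l) 0 η
    simp only [zero_mul, ne_eq, d.succ_ne_zero, not_false_eq_true, zero_pow] at h2
    exact h1 ((hη _ _ (h.hom t l)).1 ((congrArg (aeval · _) (funext hc)).trans h2))
  have : Nonempty ν := ⟨a₀⟩
  obtain ⟨i', hi'⟩ := Finite.exists_max fun a => v (η a)
  have h1 : η i' ≠ 0 := v.pos_iff.1 ((v.pos_iff.2 ha₀).trans_le (hi' a₀))
  obtain ⟨O, _, _, R, _, _, ι, ρ, o1, o2, o3⟩ := hv_ring v hv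
  choose y hy using fun a => (o2 (η a / η i')).1 (by
    rw [map_div₀]; exact div_le_one_of_le₀ (hi' a) zero_le)
  have h2 : ∀ {P : MvPolynomial ν K} {m}, P.IsHomogeneous m →
      (aeval (fun a => ι (y a)) P = 0 ↔ P ∈ I₁) := fun {P m} hP => by
    simp only [hy, div_eq_inv_mul]
    rw [aeval_mul_of_hom hP, mul_eq_zero, or_iff_right (pow_ne_zero _ (inv_ne_zero h1)), hη P m hP]
  have h3 : ∀ P ∈ I₁, aeval (fun a => ι (y a)) P = 0 := fun P hP => by
    rw [← sum_homogeneousComponent P, map_sum]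
    exact Finset.sum_eq_zero fun m _ =>
      (h2 (homogeneousComponent_isHomogeneous m P)).2 (hI₁ P hP m)
  have h4 : ∀ P ∈ I₁, aeval y P = 0 := fun P hP =>
    o1 (by rw [← aeval_hom, h3 P hP, map_zero])
  have h5 : y i' = 1 := o1 (by rw [hy, div_self h1, map_one])
  obtain ⟨t₀, l₀, h6⟩ := h.ne R (fun a => ρ (y a)) (Function.ne_iff.2 ⟨i', by simp [h5]⟩)
    fun P hP => by rw [aeval_hom, h4 P hP, map_zero]
  rw [aeval_hom] at h6
  obtain ⟨S, hS⟩ := hv_key h o1 o2 o3 h5 h4 h6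
    (r := Fin.cons (fun a => ι (y a)) fun j a => θ j (ι (y a))) (Fin.cases
      (mem_tsp.1 (tsp_self hI₁ h3)) fun j P hP => by
        rw [Fin.cons_succ, dP_der _ (θ j).map_algebraMap, h3 P hP, map_zero]) S'
  obtain ⟨ξ, hξ⟩ : ∃ ξ, ξ = fun s => aeval (fun a => ι (y a)) (π t₀ s) := ⟨_, rfl⟩
  have h7 : ∀ t (P : MvPolynomial κ k), aeval (fun a => ι (y a)) (aeval (π t) P) =
      aeval (fun s => aeval (fun a => ι (y a)) (π t s)) P := fun t P =>
    (aeval_hom ((aeval fun a => ι (y a) : MvPolynomial ν K →ₐ[K] E).restrictScalars k) _ P).symm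
  have h8 : ∀ P : MvPolynomial ν K, v (aeval (fun a => ι (y a)) P) ≤ 1 := fun P =>
    (o2 _).2 ⟨_, (aeval_hom ι y P).symm⟩
  have h9 : v (ξ l₀) = 1 := by simp only [hξ, aeval_hom, o3 _ h6]
  have h10 : ξ l₀ ≠ 0 := v.pos_iff.1 (h9 ▸ one_pos)
  obtain ⟨i, l, -, g1, g2⟩ := H E ξ (fun P m hP => by
    rw [hξ, ← h7, h2 (hP.aeval _ (h.hom t₀)),
      hd t₀ ⟨l₀, fun hc => h10 (hξ ▸ h3 _ hc)⟩ P m hP]) v (fun c => hv _) l₁.2
    (fun j => (θ j).restrictScalars k) hθ S
  have g3 : v (ξ i)⁻¹ = 1 := by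
    rw [map_inv₀, le_antisymm (a := v (ξ i)) (hξ ▸ h8 _) (h9 ▸ g1 l₀), inv_one]
  simp only [div_eq_inv_mul, Derivation.restrictScalars_apply, Derivation.leibniz, smul_eq_mul,
    mul_comm (ξ _)] at g2
  rw [minors_tri, aeval_mul_of_hom (hG _), aeval_mul_of_hom (hF _)] at g2
  simp only [map_mul, map_pow, g3, one_pow, one_mul] at g2
  have g4 : (fun j s => dP (fun a => ι (y a)) ((Fin.cons (fun a => ι (y a)) fun j a =>
      θ j (ι (y a)) : Fin (g + 1) → ν → E) j) (π t₀ s)) =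
      Fin.cons (fun s => (d + 1 : ℕ) * ξ s) fun j s => 1 * θ j (ξ s) + 0 * ξ s := by
    funext j s
    cases j using Fin.cases
    · simp only [Fin.cons_zero, dP_self (h.hom t₀ s), hξ]
    · simp only [Fin.cons_succ, dP_der _ (θ _).map_algebraMap, hξ, one_mul, zero_mul, add_zero]
  rw [g4, minors_tri, one_pow, mul_one, map_mul] at hS
  have g5 : (fun s => aeval (fun a => ι (y a)) (π l₁.1 s)) =
      fun s => aeval (fun a => ι (y a)) (π l₁.1 l₀) / ξ l₀ * ξ s := funext fun s => by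
    have a1 := h3 _ (hp l₁.1 t₀ s l₀)
    rw [map_sub, map_mul, map_mul, sub_eq_zero] at a1
    rw [div_mul_eq_mul_div, eq_div_iff h10, hξ]
    exact a1
  refine ⟨i', (t₀, l), h1, hi', ?_⟩
  simp only [← hy]
  rw [h7, h7, g5, aeval_mul_of_hom (hG _), ← hξ, map_mul, map_mul, map_pow, map_div₀, h9, div_one]
  refine le_trans (mul_le_mul' (mul_le_of_le_one_left' (pow_le_one' (h8 _) _))
    (hS.trans (mul_le_of_le_one_left' ?_))) g2
  simpa only [map_natCast] using hv (d + 1 : ℕ)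

end Pool.Agent.Lib.MP_8865d3_nt.Ae
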