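import Pool.Agent.Lib.MP_8865d3_nt.Ai.Core
import Pool.Agent.Lib.MP_651af7_nt.Et.Cov
import Pool.Agent.Lib.MP_651af7_nt.Av.MWNull
import Pool.Agent.Lib.MP_651af7_nt.Ds.Ht

/-! Local heights along a morphism. -/

namespace Pool.Agent.Lib.MP_8865d3_nt.Ae

open MvPolynomial Pool.Agent.Lib.MP_651af7_nt Av Bx Et Ai Lr

variable {K ν κ T β γ : Type} [Field K] [Fintype ν] [Fintype κ] [Fintype T] [Fintype β]
  (v : AbsoluteValue K ℝ) {I₁ : Ideal (MvPolynomial ν K)} {I : Ideal (MvPolynomial κ K)}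
  {d e g D : ℕ} {π : T → κ → MvPolynomial ν K}

theorem ev_bd (R : β → MvPolynomial ν K) : ∃ c : ℝ, 0 < c ∧ ∀ (z : ν → K), (∀ a, v (z a) ≤ 1) →
    ∀ l, v (eval z (R l)) ≤ c := by
  obtain ⟨c, hc⟩ := Finite.exists_le fun l => ∑ μ ∈ (R l).support, v (coeff μ (R l))
  refine ⟨max c 1, by positivity, fun z hz l => le_trans ?_ ((hc l).trans (le_max_left _ _))⟩
  rw [eval_eq']
  refine (v.sum_le _ _).trans (Finset.sum_le_sum fun μ _ => ?_)
  rw [map_mul, map_prod]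
  exact mul_le_of_le_one_right (v.nonneg _) (Finset.prod_le_one (fun _ _ => v.nonneg _)
    fun a _ => (map_pow v _ _).trans_le (pow_le_one₀ (v.nonneg _) (hz a)))

theorem del_bd (h : Cov I₁ I d π) (hI : ∀ P ∈ I₁, ∀ d, homogeneousComponent d P ∈ I₁) :
    ∃ c : ℝ, ∀ y : ν → K, y ≠ 0 → (∀ P ∈ I₁, eval y P = 0) →
      |(d + 1 : ℕ) * Real.log (nm v y) -
        Real.log (nm v fun p : T × κ => eval y (π p.1 p.2))| ≤ c := by
  choose M hM using fun a : ν => null_cert (AlgebraicClosure K) I₁ (fun p : T × κ => π p.1 p.2)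
    (X a) fun z hz h0 => by
      by_contra h1
      obtain ⟨t, l, h2⟩ := h.ne _ z (fun e => h1 ((aeval_X z a).trans (congrFun e a))) hz
      exact h2 (h0 (t, l))
  choose H hH using fun a => hM a _ le_rfl
  obtain ⟨c₁, p₁, h1⟩ := ev_bd v fun p : T × κ => π p.1 p.2
  obtain ⟨c₂, p₂, h2⟩ := ev_bd v fun p : ν × T × κ => H p.1 p.2
  refine ⟨|Real.log c₁| + |Real.log (Fintype.card (T × κ) * c₂)|, fun y y0 yz => ?_⟩
  have : Nonempty ν := ⟨(Function.ne_iff.1 y0).choose⟩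
  obtain ⟨a, ha⟩ := exists_nm v y
  have h3 := nm_pos v y0
  have h4 : y a ≠ 0 := v.pos_iff.1 (ha ▸ h3)
  have h5 : ∀ j, v ((y a)⁻¹ * y j) ≤ 1 := fun j => by
    rw [map_mul, map_inv₀, ha]
    exact (inv_mul_le_one₀ h3).2 (le_nm _ y j)
  have h6 : (1 : ℝ) ≤ Fintype.card (T × κ) * c₂ *
      nm v fun p : T × κ => eval (fun j => (y a)⁻¹ * y j) (π p.1 p.2) := by
    have h7 : eval (fun j => (y a)⁻¹ * y j) _ = 0 := zero_mul_of_hom (R := K) hI yz _ _ (hH a)
    rw [map_sub, map_pow, eval_X, inv_mul_cancel₀ h4, one_pow, sub_eq_zero, map_sum] at h7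
    rw [← v.map_one, h7, mul_assoc, ← nsmul_eq_mul, ← Finset.card_univ]
    refine (v.sum_le _ _).trans (Finset.sum_le_card_nsmul _ _ _ fun p _ => ?_)
    rw [map_mul, map_mul]
    exact mul_le_mul (h2 _ h5 (a, p)) (le_nm v (fun p : T × κ => eval _ (π p.1 p.2)) p)
      (v.nonneg _) p₂.le
  have h7 : nm v (fun p : T × κ => eval (fun j => (y a)⁻¹ * y j) (π p.1 p.2)) ≤ c₁ :=
    Real.iSup_le (h1 _ h5) p₁.le
  simp only [eval_mul_of_hom (h.hom _ _), Sv.nm_mul_left, map_pow, map_inv₀, ha] at h6 h7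
  obtain ⟨h8, h9⟩ := mul_ne_zero_iff.1 (zero_lt_one.trans_le h6).ne'
  have k1 := Real.log_nonneg h6
  have k2 := Real.log_le_log (lt_of_le_of_ne (mul_nonneg (by positivity) (nm_nn _ _)) h9.symm) h7
  rw [Real.log_mul h8 h9] at k1
  rw [Real.log_mul (left_ne_zero_of_mul h9) (right_ne_zero_of_mul h9), Real.log_pow,
    Real.log_inv] at k1 k2
  have k3 := le_abs_self (Real.log c₁)
  have k4 := le_abs_self (Real.log (Fintype.card (T × κ) * c₂))
  have k5 := abs_nonneg (Real.log c₁)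
  have k6 := abs_nonneg (Real.log (Fintype.card (T × κ) * c₂))
  exact abs_le.2 ⟨by linarith, by linarith⟩

variable [NumberField K]

theorem lam_cov {F : β → MvPolynomial κ K} (hF : ∀ l, (F l).IsHomogeneous e) {y : ν → K}
    {x : κ → K} {s : T → K} (h : ∀ t i, eval y (π t i) = s t * x i) (y0 : y ≠ 0) (s0 : s ≠ 0)
    (x0 : x ≠ 0) (xF : (fun l => eval x (F l)) ≠ 0) :
    (fun p : T × β => eval y (aeval (π p.1) (F p.2))) ≠ 0 ∧
    lam v (fun p : T × β => aeval (π p.1) (F p.2)) (d * e) y = lam v F e x + e * (d *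
      Real.log (nm v y) - Real.log (nm v fun p : T × κ => eval y (π p.1 p.2))) := by
  have : Nonempty T := ⟨(Function.ne_iff.1 s0).choose⟩
  have h1 : ∀ p : T × β, eval y (aeval (π p.1) (F p.2)) = s p.1 ^ e * eval x (F p.2) :=
    fun p => loc_eval (hF p.2) (h p.1)
  simp only [lam, h1, h]
  refine ⟨ne_mul (f := fun t => s t ^ e) (Function.ne_iff.2 ((Function.ne_iff.1 s0).imp
    fun _ h => pow_ne_zero _ h)) xF, ?_⟩
  have h2 : nm v (fun p : T × κ => s p.1 * x p.2) = nm v s * nm v x :=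
    Real.iSup_fun_mul_eq_iSup_mul_iSup_of_nonneg v s x
  rw [Real.iSup_fun_mul_eq_iSup_mul_iSup_of_nonneg v (fun t => s t ^ e) fun l => eval x (F l), h2]
  simp only [map_pow]
  rw [Ds.ht2_sup (fun t => v (s t)) (fun _ => v.nonneg _) e]
  change Real.log (nm v y ^ _ / (nm v s ^ e * nm v fun l => eval x (F l))) =
    Real.log (nm v x ^ e / nm v fun l => eval x (F l)) + _
  have p1 := (nm_pos v y0).ne'
  have p2 := (nm_pos v s0).ne'
  have p3 := (nm_pos v x0).ne'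
  have p4 := (nm_pos v xF).ne'
  rw [Real.log_div (pow_ne_zero _ p1) (mul_ne_zero (pow_ne_zero _ p2) p4),
    Real.log_div (pow_ne_zero _ p3) p4, Real.log_mul (pow_ne_zero _ p2) p4, Real.log_mul p2 p3]
  simp only [Real.log_pow]
  push_cast
  ring

theorem lam_pad {F : β → MvPolynomial ν K} {y : ν → K} (y0 : y ≠ 0)
    (yF : (fun l => eval y (F l)) ≠ 0) :
    (fun p : β × (Fin D → ν) => eval y (F p.1 * ∏ i, X (p.2 i))) ≠ 0 ∧
    lam v F e y ≤ lam v (fun p : β × (Fin D → ν) => F p.1 * ∏ i, X (p.2 i)) (e + D) y := by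
  obtain ⟨a, ha⟩ := Function.ne_iff.1 y0
  have h1 : (fun p : β × (Fin D → ν) => eval y (F p.1 * ∏ i, X (p.2 i))) ≠ 0 := by
    simp only [map_mul, map_prod, eval_X]
    exact ne_mul (g := fun μ : Fin D → ν => ∏ i, y (μ i)) yF (Function.ne_iff.2
      ⟨fun _ => a, Finset.prod_ne_zero_iff.2 fun _ _ => ha⟩)
  have p1 := nm_pos v y0
  have p2 := nm_pos v yF
  refine ⟨h1, Real.log_le_log (div_pos (pow_pos p1 _) p2) ((div_le_div_iff₀ p2 (nm_pos v h1)).2 ?_)⟩
  change nm v y ^ e * _ ≤ nm v y ^ (e + D) * _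
  rw [pow_add, mul_assoc, mul_comm (_ ^ D)]
  refine mul_le_mul_of_nonneg_left (Real.iSup_le (fun p => ?_) (by positivity)) (by positivity)
  simp only [map_mul, map_prod]
  refine mul_le_mul (le_nm v (fun l => eval y (F l)) p.1) ((Finset.prod_le_prod
    (fun _ _ => v.nonneg _) fun i _ => (congrArg v (eval_X _)).trans_le (le_nm v y _)).trans_eq
      (by simp)) (Finset.prod_nonneg fun _ _ => v.nonneg _) p2.le

omit [Fintype ν] [Fintype β] [NumberField K] in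
theorem hv_pad {F : β → MvPolynomial ν K} {G : γ → MvPolynomial ν K} (H : HV I₁ g F G) :
    HV I₁ g (fun p : β × (Fin D → ν) => F p.1 * ∏ i, X (p.2 i)) G := by
  intro E _ _ ξ h v hv l θ hθ S
  obtain ⟨i, l', h1, h2, h3⟩ := H E ξ h v hv l θ hθ S
  exact ⟨i, (l', fun _ => i), h1, h2, by simpa [div_self h1] using h3⟩

end Pool.Agent.Lib.MP_8865d3_nt.Ae
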