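import Pool.Agent.Lib.MP_8865d3_nt.Ae.Set
import Pool.Agent.Lib.MP_8865d3_nt.Ae.Hv
import Pool.Agent.Lib.MP_8865d3_nt.Ae.Loc
import Pool.Agent.Lib.MP_651af7_nt.Sc.Cov
import Pool.Agent.Lib.MP_651af7_nt.Cu.VModel

/-! The inequality on varieties with an étale cover that is a scroll. -/

namespace Pool.Agent.Lib.MP_8865d3_nt.Ae

open MvPolynomial Module NumberField Height Pool.Agent.Lib.MP_651af7_nt Av Bx Ds Et Sc Ai Lr
open Sv (isum plc isum_plc isum_mono isum_add)

theorem coreE {L ι κ β γ T : Type} [Field L] [NumberField L] [Fintype ι] [Fintype κ] [Fintype β]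
    [Fintype γ] [Fintype T] {N n g b d D e e' : ℕ} (V : AV L ι)
    {I₁ : Ideal (MvPolynomial (Fin N) L)} {I : Ideal (MvPolynomial κ L)} (h1 : Var I₁)
    (h2 : Smooth I₁ g) {B : Fin N → Fin (n + 1) → MvPolynomial ι L}
    (h3 : ∀ i j, (B i j).IsHomogeneous b) {φ : ι → MvPolynomial (Fin N) L}
    {χ : Fin (n + 1) → MvPolynomial (Fin N) L} (h4 : Bir I₁ V.I φ χ fun i => lin (B i))
    {π : T → κ → MvPolynomial (Fin N) L} (h5 : Cov I₁ I d π)
    (h6 : ∀ t t' i j, π t i * π t' j - π t j * π t' i ∈ I₁)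
    (hI : ∀ P ∈ I, ∀ d, homogeneousComponent d P ∈ I) {F : β → MvPolynomial κ L}
    {G : γ → MvPolynomial κ L} (hF : ∀ l, (F l).IsHomogeneous e) (hG : ∀ l, (G l).IsHomogeneous e')
    (h8 : Split V.I ((d + 1) * e + D) fun p : (T × β) × (Fin D → Fin N) =>
      aeval (fun i => lin (B i)) (aeval (π p.1.1) (F p.1.2) * ∏ i, X (p.2 i)))
    (H : HV I₁ g (fun p : T × β => aeval (π p.1) (F p.2)) fun p : T × γ => aeval (π p.1) (G p.2))
    {ε : ℝ} (hε : 0 < ε) : ∃ (Θ : MvPolynomial (Fin N) L) (t : ℕ), Θ.IsHomogeneous t ∧ Θ ∉ I₁ ∧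
      ∀ S : Finset (FinitePlace L), ∃ C : ℝ, ∀ (y : Fin N → L) (x : κ → L) (s : T → L), y ≠ 0 →
        (∀ P ∈ I₁, eval y P = 0) → eval y Θ ≠ 0 → x ≠ 0 → (∀ t i, eval y (π t i) = s t * x i) →
        (fun l => eval x (F l)) ≠ 0 → (fun l => eval x (G l)) ≠ 0 →
        finrank L (tsp I x) = g + 1 → ∀ w : Fin (g + 1) → κ → L, LinearIndependent L w →
        (∀ l, w l ∈ tsp I x) → hK x w + (∑ v : InfinitePlace L, v.mult * (lam v.1 F e x -
          lam v.1 G e' x) + ∑ v ∈ S, (lam v.1 F e x - lam v.1 G e' x)) ≤ ε * logHeight y + C := by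
  have i1 : ∀ P : MvPolynomial (Fin N) L, map (algebraMap L L) P = P := fun P => map_id P
  have i2 : I₁.map (map (algebraMap L L)) = I₁ := by
    rw [show (map (algebraMap L L) : MvPolynomial (Fin N) L →+* _) = RingHom.id _ from
      RingHom.ext i1, Ideal.map_id]
  have i3 : ∀ μ : Fin D → Fin N, (∏ i, X (μ i) : MvPolynomial (Fin N) L).IsHomogeneous D :=
    fun μ => by
      simpa using IsHomogeneous.prod Finset.univ _ (fun _ => 1) fun i _ => isHomogeneous_X L (μ i)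
  have i5 := hv_pad (D := D) H
  have i4 := Ai.core (k := L) (φ := φ) (χ := χ) (e := (d + 1) * e + D) (e' := (d + 1) * e')
    (F := fun p : (T × β) × (Fin D → Fin N) => aeval (π p.1.1) (F p.1.2) * ∏ i, X (p.2 i))
    (G := fun p : T × γ => aeval (π p.1) (G p.2)) V h1.hom (by rw [i2]; exact h1.isPrime) h2 h3
    (by rw [i2]; exact h4) (fun p => ((hF _).aeval _ (h5.hom _)).mul (i3 _))
    (fun p => (hG _).aeval _ (h5.hom _)) h8 i5 hε
  simp only [i1, i2] at i4
  obtain ⟨Θ, t, t1, t2, t3⟩ := i4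
  obtain ⟨C₁, t4⟩ := hK_cov (g := g) h5 h6 h1.hom hI
  choose c hc using fun v => del_bd v h5 h1.hom
  refine ⟨Θ, t, t1, t2, fun S => ?_⟩
  obtain ⟨C, hC⟩ := t3 S
  refine ⟨C + C₁ + isum (plc S) fun v => (e + e') * c v,
    fun y x s y0 yz yΘ x0 hx xF xG r1 w b1 b2 => ?_⟩
  obtain ⟨t₀, l₀, h0⟩ := h5.ne L y y0 yz
  have s0 : s ≠ 0 := Function.ne_iff.2 ⟨t₀, left_ne_zero_of_mul ((hx t₀ l₀).symm.trans_ne h0)⟩
  have k1 := fun v => lam_cov v (d := d + 1) hF hx y0 s0 x0 xF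
  have k2 := fun v => lam_cov v (d := d + 1) hG hx y0 s0 x0 xG
  have v₀ : AbsoluteValue L ℝ := (Classical.arbitrary (InfinitePlace L)).1
  have k3 := fun v => lam_pad v (D := D) (e := (d + 1) * e) y0 (k1 v₀).1
  obtain ⟨r2, e2⟩ := hC y y0 yz yΘ (k3 v₀).1 (k2 v₀).1
  let w' := Module.finBasisOfFinrankEq L _ r2
  have b3 := w'.linearIndependent.map' (tsp I₁ y).subtype (Submodule.ker_subtype _)
  have e3 := e2 _ b3 fun l => (w' l).2
  have e4 := t4 y x s y0 yz x0 hx r2 r1 w _ b1 b2 b3 fun l => (w' l).2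
  have e5 := isum_mono (plc S) (f := fun v => lam v F e x - lam v G e' x)
    (g := fun v => _ + (e + e') * c v) fun v _ _ => (show _ ≤ _ from by
      have m1 := mul_le_mul_of_nonneg_left (abs_le.1 (hc v y y0 yz)).1 (Nat.cast_nonneg (α := ℝ) e)
      have m2 := mul_le_mul_of_nonneg_left (abs_le.1 (hc v y y0 yz)).2 (Nat.cast_nonneg (α := ℝ) e')
      have m3 := sub_le_sub_right (k3 v).2
        (lam v (fun p : T × γ => aeval (π p.1) (G p.2)) ((d + 1) * e') y)
      refine le_trans ?_ (add_le_add_left m3 _)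
      rw [(k1 v).2, (k2 v).2]
      linarith)
  rw [isum_add, isum_plc S, isum_plc S] at e5
  linarith

theorem main {k K₀ κ ι β γ μ : Type} [Field k] [NumberField k] [Field K₀] [Algebra k K₀]
    [Fintype κ] [Fintype ι] [Fintype β] [Fintype γ] [Fintype μ] {N n g b e e' : ℕ}
    {I : Ideal (MvPolynomial κ k)} (hI : Var I) (hs : Smooth I g)
    {I' : Ideal (MvPolynomial (Fin N) (AlgebraicClosure k))} (hI' : Var I')
    {f : (Fin N → AlgebraicClosure k) → κ → AlgebraicClosure k}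
    (hf : Etale I' (I.map (map (algebraMap k (AlgebraicClosure k)))) f)
    {J : Ideal (MvPolynomial ι (AlgebraicClosure k))} (hJ : Abelian J)
    {B : Fin N → Fin (n + 1) → MvPolynomial ι (AlgebraicClosure k)}
    (hB : ∀ i j, (B i j).IsHomogeneous b) (hb : ∃ φ χ, BirP I' J φ χ fun i => lin (B i))
    {F : β → MvPolynomial κ k} {G : γ → MvPolynomial κ k} (hF : ∀ l, (F l).IsHomogeneous e)
    (hG : ∀ l, (G l).IsHomogeneous e') (hF' : Mono J (aeval (fun i => lin (B i)) '' pull I' f F))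
    {ξ : κ → K₀} {η : μ → K₀} (hr : LogRes I g F ξ η)
    (hm : ∀ l, ∀ c : ℚ, 0 < c → c < 1 → InMult g F ξ η c (G l)) {ε : ℝ} (hε : 0 < ε) :
    Ai.Concl I g F e G e' ε := by
  rcases isEmpty_or_nonempty β with _ | _
  · exact ⟨1, 0, isHomogeneous_one _ _, fun h => hI.prime.ne_top ((Ideal.eq_top_iff_one _).2
      (by simpa using Ideal.mem_map_of_mem (map (algebraMap k (AlgebraicClosure k))) h)),
      fun S => ⟨0, fun x _ _ _ h => (h (Subsingleton.elim _ _)).elim⟩⟩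
  obtain ⟨A, _, co, a1, a2⟩ := hJ
  obtain ⟨φ, χ, hb⟩ := hb
  obtain ⟨K, _, m, b', V, I₁, B', φ', χ', T, _, d, D, π, a, C₀, h1, h2, h3, h4, h5, h6, h7, h8,
    h9⟩ := setupE hI hs hI' hf a1 (Cu.model a1 a2) hB hb.bir hF hF'
  have hε' : 0 < ε / (a + 1) := by positivity
  obtain ⟨H, t, t1, t2, t3⟩ := coreE (F := fun l => map (algebraMap k K) (F l))
    (G := fun l => map (algebraMap k K) (G l)) V h1 h2 h3 h4 h5 h6 (var_up hI).hom
    (fun l => (hF l).map _) (fun l => (hG l).map _) (by simpa only [aeval_map_algebraMap] using h8)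
    (by
      simp only [aeval_map_algebraMap]
      exact hv_cov h5 h6 h1.hom h7 hF hG fun E _ _ ξ' h v hv l => log_val hr (hm l) h v hv) hε'
  obtain ⟨Θ, t', u1, u2, u3⟩ := h9 H t t1 t2
  refine ⟨Θ, t', u1, u2, fun S => ?_⟩
  obtain ⟨S', hS, -⟩ := exists_places (K := K) (n := 0) S
  obtain ⟨C, hC⟩ := t3 S'
  have hn : (0 : ℝ) < finrank k K := Nat.cast_pos.2 finrank_pos
  have hne : ∀ {F : Type} [Field F] [Algebra k F] {α : Type} {y : α → k}, y ≠ 0 →
      (fun a => algebraMap k F (y a)) ≠ 0 := fun h h' =>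
    h (funext fun a => (map_eq_zero _).1 (congrFun h' a))
  refine ⟨(ε / (a + 1) * C₀ + C) / finrank k K, fun x x0 xz xΘ xF xG => ?_⟩
  have r1 : finrank k (tsp I x) = g + 1 := by
    rw [← finrank_tsp (F := AlgebraicClosure k)]
    exact hs _ (hne x0) (tan3_zero xz)
  have r2 : finrank K (tsp (up K I) fun a => algebraMap k K (x a)) = g + 1 := by
    rw [up_eq, tsp_map (x := fun a => algebraMap k K (x a)) fun P hP =>
      (aeval_algebraMap_apply K x P).trans ((map_eq_zero _).2 (xz P hP)), finrank_tsp, r1]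
  refine ⟨r1, fun w b1 b2 => ?_⟩
  obtain ⟨y, s, y0, yz, yH, y1, yh⟩ := u3 x x0 xz xΘ
  have e3 := hC y _ s y0 yz yH (hne x0) y1 (by simpa only [ev_map] using hne xF)
    (by simpa only [ev_map] using hne xG) r2
    (fun l a => algebraMap k K (w l a)) (linearIndependent_algebraMap_comp_iff.2 b1)
    fun l => tsp_up xz (b2 l)
  simp only [mul_sub, Finset.sum_sub_distrib] at e3 ⊢
  rw [sum_inf F e x0 xF, sum_inf G e' x0 xG, hS F e x x0 xF, hS G e' x x0 xG, hK_alg] at e3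
  rw [MP_651af7_nt.Final.logHeight_algebraMap] at yh
  have e5 := mul_le_mul_of_nonneg_left yh hε'.le
  have e6 : ε / (a + 1) * (a * (finrank k K * logHeight x) + finrank k K * logHeight x) =
      ε * (finrank k K * logHeight x) := by field_simp
  have e7 := mul_nonneg hε'.le (mul_nonneg hn.le (logHeight_nonneg x))
  refine le_of_mul_le_mul_left ?_ hn
  rw [mul_add _ (ε * _), mul_div_cancel₀ _ hn.ne']
  linarith

end Pool.Agent.Lib.MP_8865d3_nt.Ae
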