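import Pool.Agent.Lib.MP_8865d3_nt.Ae.Defs
import Pool.Agent.Lib.MP_8865d3_nt.Ai.Zd

/-! From ideal sheaves to linear spans in one large degree. -/

namespace Pool.Agent.Lib.MP_8865d3_nt.Ae

open MvPolynomial Matrix Pool.Agent.Lib.MP_651af7_nt Av Ai Lr
open Es (mn)

section alg

variable {A τ β : Type} [CommRing A]

theorem sp_ind {k : ℕ} {Q g : MvPolynomial τ A} (hQ : Q.IsHomogeneous k)
    {W : Submodule A (MvPolynomial τ A)} (h : ∀ ν : Fin k → τ, (∏ i, X (ν i)) * g ∈ W) :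
    Q * g ∈ W := by
  have h1 : Q ∈ homogeneousSubmodule τ A k := hQ
  rw [← homogeneousSubmodule_one_pow, homogeneousSubmodule_one_eq_span_X, Submodule.span_pow] at h1
  refine (Submodule.span_le (p := W.comap (LinearMap.mulRight A g))).2 (fun x hx => ?_) h1
  obtain ⟨f, hf, rfl⟩ := Set.mem_pow_iff_prod.1 hx
  choose ν hν using hf
  obtain rfl : _ = f := funext hν
  exact h ν

theorem sp_key [Fintype β] {g : β → MvPolynomial τ A} {e k : β → ℕ} {r : ℕ}
    (hg : ∀ l, (g l).IsHomogeneous (e l)) (he : ∀ l, k l + e l = r) {P a : MvPolynomial τ A}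
    (hP : P.IsHomogeneous r) (h : P ∈ Ideal.span (Set.range g))
    {W : Submodule A (MvPolynomial τ A)}
    (hW : ∀ l (ν : Fin (k l) → τ), (∏ i, X (ν i)) * (a * g l) ∈ W) : a * P ∈ W := by
  let := MvPolynomial.gradedAlgebra (σ := τ) (R := A)
  obtain ⟨Q, rfl⟩ := Ideal.mem_span_range_iff_exists_fun.1 h
  rw [← homogeneousComponent_eq_self hP, map_sum, Finset.mul_sum]
  refine W.sum_mem fun l _ => ?_
  have h1 : homogeneousComponent (k l + e l) (Q l * g l) =
      homogeneousComponent (k l) (Q l) * g l := by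
    simp only [← decomposition.decompose'_apply]
    exact DirectSum.coe_decompose_mul_add_of_right_mem (homogeneousSubmodule τ A) (hg l)
  rw [← he l, h1, mul_left_comm]
  exact sp_ind (homogeneousComponent_isHomogeneous _ _) (hW l)

theorem sp_fib {R : Type} [CommRing R] [Fintype τ] [DecidableEq τ] {k : ℕ} (ν : Fin k → τ)
    (y : τ → R) : ∏ t, y t ^ (Finset.univ.filter fun i => ν i = t).card = ∏ i, y (ν i) := by
  simp only [← Finset.prod_fiberwise' Finset.univ ν y, Finset.prod_const]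

end alg

variable {L ι β : Type} [Field L] {n : ℕ} {J : Ideal (MvPolynomial ι L)}

variable (J) in
/-- The reduction of the coefficients modulo `J`. -/
noncomputable def sp_q : MvPolynomial (ι ⊕ Fin (n + 1)) L →+*
    MvPolynomial (Fin (n + 1)) (MvPolynomial ι L ⧸ J) :=
  (MvPolynomial.map (Ideal.Quotient.mk J)).comp
    (Sv.cur : MvPolynomial (ι ⊕ Fin (n + 1)) L →ₐ[L] _)

theorem sp_inl (c : MvPolynomial ι L) :
    sp_q (n := n) J (rename Sum.inl c) = C (Ideal.Quotient.mk J c) :=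
  (congrArg (MvPolynomial.map _) (Sv.trop_cur_inl c)).trans (map_C _ _)

theorem sp_inr (t : Fin (n + 1)) : sp_q J (X (.inr t)) = X t :=
  (congrArg (MvPolynomial.map _) (cur_inr t)).trans (map_X _ _)

theorem sp_zero {P : MvPolynomial (ι ⊕ Fin (n + 1)) L} :
    sp_q J P = 0 ↔ P ∈ J.map (rename Sum.inl) := by
  rw [Sv.mem_map_iff, MvPolynomial.ext_iff]
  exact forall_congr' fun μ => by
    rw [← Ideal.Quotient.eq_zero_iff_mem, ← coeff_map]
    rfl

theorem sp_lin (u : Fin (n + 1) → MvPolynomial ι L) :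
    sp_q J (lin u) = ∑ t, C (Ideal.Quotient.mk J (u t)) * X t := by
  simp only [Ai.lin, map_sum, map_mul, sp_inl, sp_inr]

theorem sp_lh (u : Fin (n + 1) → MvPolynomial ι L) : (sp_q J (lin u)).IsHomogeneous 1 := by
  rw [sp_lin]
  exact IsHomogeneous.sum _ _ _ fun t _ => (isHomogeneous_X _ _).C_mul _

theorem sp_adj (M : Fin (n + 1) → Fin (n + 1) → MvPolynomial ι L) (t : Fin (n + 1)) :
    C (Ideal.Quotient.mk J (of M).det) * X t =
      ∑ l, C (Ideal.Quotient.mk J ((of M).adjugate t l)) * sp_q J (lin (M l)) := by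
  have h : ∀ j, ∑ l, (of M).adjugate t l * M l j = if t = j then (of M).det else 0 := fun j => by
    simpa [one_apply, mul_apply] using congrFun₂ (adjugate_mul (of M)) t j
  simp only [sp_lin, Finset.mul_sum, ← mul_assoc, ← map_mul]
  rw [Finset.sum_comm]
  simp only [← Finset.sum_mul, ← map_sum, h]
  simp [apply_ite]

variable [Fintype β] {f : β → MvPolynomial (ι ⊕ Fin (n + 1)) L}
  {p : MvPolynomial (ι ⊕ Fin (n + 1)) L}

theorem sp_span {c : MvPolynomial ι L} {d : ℕ} (h1 : c.IsHomogeneous d) (h2 : c ∉ J)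
    (h : C (Ideal.Quotient.mk J c) * sp_q J p ∈
      Submodule.span (MvPolynomial ι L ⧸ J) (Set.range fun l => sp_q J (f l))) : InSpan J f p := by
  obtain ⟨a, ha⟩ := (Submodule.mem_span_range_iff_exists_fun _).1 h
  choose q hq using fun l => Ideal.Quotient.mk_surjective (a l)
  refine ⟨c, d, q, h1, h2, sp_zero.1 ?_⟩
  simp only [map_sub, map_mul, map_sum, sp_inl, hq, ← ha, smul_eq_C_mul, sub_self]

omit [Fintype β] in
theorem sp_sat (h : Sat J (Set.range f) p) : ∃ (c : MvPolynomial ι L) (d M : ℕ),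
    c.IsHomogeneous d ∧ c ∉ J ∧ ∀ D, M ≤ D → ∀ Q : MvPolynomial (Fin (n + 1)) _,
      Q.IsHomogeneous D → Q * (C (Ideal.Quotient.mk J c) * sp_q J p) ∈
        Ideal.span (Set.range fun l => sp_q J (f l)) := by
  obtain ⟨c, d, M, h1, h2, h⟩ := h
  refine ⟨c, d, (n + 1) * M, h1, h2, fun D hD Q hQ => sp_ind hQ
    (W := (Ideal.span _).restrictScalars _) fun ν => ?_⟩
  obtain ⟨t, ht⟩ := Fintype.exists_le_card_fiber_of_mul_le_card ν (n := M) (by simpa using hD)
  obtain ⟨x, hx, y, hy, h3⟩ := Submodule.mem_sup.1 (h t)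
  have h4 := Ideal.mem_map_of_mem (sp_q J) hy
  rw [Ideal.map_span, ← Set.range_comp, ← zero_add (sp_q J y), ← sp_zero.2 hx, ← map_add, h3,
    map_mul, map_mul, map_pow, sp_inl, sp_inr, mul_comm (C _), mul_assoc] at h4
  refine Ideal.mem_of_dvd _ (mul_dvd_mul_right ((pow_dvd_pow _ ht).trans ?_) _) h4
  rw [← sp_fib]
  exact Finset.dvd_prod_of_mem _ (Finset.mem_univ t)

theorem sp_mk {κ σ : Type} [Fintype κ] [Fintype σ] {e : ℕ}
    (u : κ → Fin (n + 1) → MvPolynomial ι L) (d : κ → ℕ) (m : σ → κ → ℕ)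
    (h1 : ∀ j t, (u j t).IsHomogeneous (d j)) (h2 : ∀ i, ∑ j, m i j = e)
    (h3 : ∀ l, InSpan J (fun i => ∏ j, lin (u j) ^ m i j) (f l))
    (h4 : ∀ i, InSpan J f (∏ j, lin (u j) ^ m i j)) : Split J e f := by
  let a := (Fintype.equivFin κ).symm
  let b := (Fintype.equivFin σ).symm
  have h5 : ∀ i, ∏ j, lin (u (a j)) ^ m i (a j) = ∏ j, lin (u j) ^ m i j := fun i =>
    a.prod_comp fun j => lin (u j) ^ m i j
  refine ⟨_, _, fun j => u (a j), fun j => d (a j), fun i j => m (b i) (a j), fun j => h1 _,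
    fun i => (a.sum_comp _).trans (h2 _), fun l => ?_, fun i => (h5 _).symm ▸ h4 _⟩
  obtain ⟨c, k, q, h6, h7, h8⟩ := h3 l
  refine ⟨c, k, fun i => q (b i), h6, h7, ?_⟩
  simp only [h5]
  rwa [b.sum_comp fun i => rename Sum.inl (q i) * ∏ j, lin (u j) ^ m i j]

theorem Mono.split {L ι Λ : Type} [Field L] [Fintype ι] [Fintype Λ] {N n b : ℕ}
    {J : Ideal (MvPolynomial ι L)} (hJ : J.IsPrime) {B : Fin N → Fin (n + 1) → MvPolynomial ι L}
    (hB : ∀ i j, (B i j).IsHomogeneous b) (hp : ∃ u, mn (of B) u ∉ J)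
    {f : Λ → MvPolynomial (ι ⊕ Fin (n + 1)) L} {δ : ℕ × ℕ}
    (hf : ∀ l, (f l).IsWeightedHomogeneous (bw ι (Fin (n + 1))) δ) (h : Mono J (Set.range f)) :
    ∃ D, Split J (δ.2 + D) fun p : Λ × (Fin D → Fin N) => f p.1 * ∏ i, lin (B (p.2 i)) := by
  obtain ⟨q, s, u, d, m, hu, h1, h2⟩ := h
  obtain ⟨w, hw⟩ := hp
  choose c₁ d₁ M₁ a₁ b₁ h1 using fun i => sp_sat (h1 i)
  choose c₂ d₂ M₂ a₂ b₂ h2 using fun l => sp_sat (h2 _ ⟨l, rfl⟩)
  obtain ⟨D, k, hk, hD⟩ : ∃ (D : ℕ) (k : Fin s → ℕ),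
      (∀ i, k i + ∑ j, m i j = δ.2 + D ∧ M₁ i ≤ k i) ∧ ∀ l, M₂ l ≤ D := by
    let D := ∑ i, (∑ j, m i j + M₁ i) + ∑ l, M₂ l
    refine ⟨D, fun i => δ.2 + D - ∑ j, m i j, fun i => ?_, fun l =>
      (Finset.single_le_sum (fun _ _ => Nat.zero_le _) (Finset.mem_univ l)).trans le_add_self⟩
    have : ∑ j, m i j + M₁ i ≤ D := (Finset.single_le_sum (f := fun i => ∑ j, m i j + M₁ i)
      (fun _ _ => Nat.zero_le _) (Finset.mem_univ i)).trans le_self_add
    exact ⟨Nat.sub_add_cancel (by omega), Nat.le_sub_of_add_le (by omega)⟩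
  have hf' : ∀ l, (sp_q J (f l)).IsHomogeneous δ.2 := fun l => (cur_hom (hf l)).map _
  have hm : ∀ i, (sp_q J (∏ j, lin (u j) ^ m i j)).IsHomogeneous (∑ j, m i j) := fun i => by
    simp only [map_prod, map_pow]
    exact .prod _ _ _ fun j _ => by simpa using (sp_lh (J := J) (u j)).pow (m i j)
  have hX : ∀ {D} (ν : Fin D → Fin (n + 1)), (∏ i, X (ν i) :
      MvPolynomial _ (MvPolynomial ι L ⧸ J)).IsHomogeneous D := fun ν => by
    simpa using IsHomogeneous.prod Finset.univ _ _ fun i _ => isHomogeneous_X _ (ν i)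
  have h3 : ∀ x : Σ i, Fin (k i) → Fin (n + 1), sp_q J (∏ j : Fin q ⊕ Fin (n + 1),
      Ai.lin (Sum.elim u (fun t => Pi.single t 1) j) ^ Sum.elim (m x.1)
        (fun t => (Finset.univ.filter fun i => x.2 i = t).card) j) =
      (∏ i, X (x.2 i)) * sp_q J (∏ j, Ai.lin (u j) ^ m x.1 j) := fun x => by
    rw [Fintype.prod_sum_type, map_mul, mul_comm, ← sp_fib x.2]
    simp [sp_lin, Pi.single_apply, apply_ite]
  refine ⟨D, sp_mk (Sum.elim u fun t => Pi.single t 1) (Sum.elim d 0)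
    (fun x : Σ i, Fin (k i) → Fin (n + 1) => Sum.elim (m x.1)
      fun t => (Finset.univ.filter fun i => x.2 i = t).card) ?_ (fun x => ?_)
    (fun p => sp_span (a₂ p.1) (b₂ _) ?_) fun x => sp_span (((det_whom (w := 1) (δ := fun _ => b)
      fun j a => hB (w j) a).pow D).mul (a₁ x.1)) (fun h => (hJ.mem_or_mem h).elim
        (fun h => hw (hJ.mem_of_pow_mem _ h)) (b₁ _)) ?_⟩
  · rintro (j | j) t
    · exact hu j t
    rw [Sum.elim_inr, Pi.single_apply]
    split_ifs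
    exacts [isHomogeneous_one _ _, isHomogeneous_zero _ _ _]
  · rw [Fintype.sum_sum_type, ← (hk x.1).1, add_comm]
    simp [← Finset.card_eq_sum_card_fiberwise]
  · have h4 : (∏ i, sp_q J (lin (B (p.2 i)))).IsHomogeneous D := by
      simpa using IsHomogeneous.prod Finset.univ _ _ fun i _ => sp_lh (J := J) (B (p.2 i))
    rw [map_mul, map_prod, ← mul_assoc, mul_comm, ← one_mul (_ * _)]
    refine sp_key hm (fun i => (hk i).1) (by
      simpa [add_comm] using h4.mul ((hf' p.1).C_mul _)) (h2 _ D (hD _) _ h4) fun i ν => ?_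
    rw [one_mul]
    exact Submodule.subset_span ⟨⟨i, ν⟩, h3 ⟨i, ν⟩⟩
  · rw [h3, map_mul, map_mul, mul_assoc, mul_left_comm (C (Ideal.Quotient.mk J (c₁ x.1)))]
    refine sp_key (k := fun _ => D) hf' (fun _ => add_comm _ _) (by
      simpa [(hk _).1] using (hX x.2).mul ((hm x.1).C_mul _)) (h1 _ _ (hk _).2 _ (hX x.2))
      fun l ν => ?_
    have h4 : ∏ i, C (Ideal.Quotient.mk J (mn (of B) w)) * X (ν i) = _ :=
      (Finset.prod_congr rfl fun i _ => sp_adj (fun a => B (w a)) (ν i)).trans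
        (Fintype.prod_sum _)
    rw [Finset.prod_mul_distrib, Fin.prod_const, mul_comm] at h4
    rw [← mul_assoc, map_pow, map_pow]
    refine (congrArg (· * _ ∈ _) h4).mpr ?_
    rw [Finset.sum_mul]
    refine Submodule.sum_mem _ fun v _ => ?_
    rw [Finset.prod_mul_distrib, ← map_prod, mul_assoc, ← smul_eq_C_mul]
    exact Submodule.smul_mem _ _ (Submodule.subset_span
      ⟨(l, w ∘ v), by simp only [map_mul, map_prod, mul_comm, Function.comp_apply]⟩)

end Pool.Agent.Lib.MP_8865d3_nt.Ae
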