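import Pool.Agent.Lib.MP_8865d3_nt.Ae.Atl
import Pool.Agent.Lib.MP_8865d3_nt.Ae.Spl
import Pool.Agent.Lib.MP_651af7_nt.Sc.Set

/-! The cover, its charts and the scroll over one number field. -/

namespace Pool.Agent.Lib.MP_8865d3_nt.Ae

open MvPolynomial Module Height Pool.Agent.Lib.MP_651af7_nt Av Bx Ds Et Sc Ai Lr

theorem se_hom {k L ν κ : Type} [Field k] [Field L] [Algebra k L] {P : MvPolynomial κ k} {d e : ℕ}
    (hP : P.IsHomogeneous e) {π : κ → MvPolynomial ν L} (h : ∀ i, (π i).IsHomogeneous d) :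
    (aeval π P).IsHomogeneous (d * e) := by
  rw [← aeval_map_algebraMap L]
  exact (hP.map _).aeval π h

theorem se_psi {L ι ν : Type} [Field L] {n b e : ℕ} {B : ν → Fin (n + 1) → MvPolynomial ι L}
    (hB : ∀ i j, (B i j).IsHomogeneous b) {P : MvPolynomial ν L} (hP : P.IsHomogeneous e) :
    (aeval (fun i => lin (B i)) P).IsWeightedHomogeneous (bw ι (Fin (n + 1))) (e * b, e) := by
  simpa using Sv.homog_aeval (w := 1) (multiplesHom (ℕ × ℕ) (b, 1))
    (fun s => by simpa using lin_hom (hB s)) hP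

/- As `Sc.setupS` (reuse its lemmas `st_*`), with `mn_notMem`, `Mono.atlas`, `Mono.split` over the
algebraic closure (`se_psi` for the bidegree) and then `Split.tw`, `Split.fin` as in
`Ai.descendS`. The clause on kernels: `Etale.map_mem`, `Etale.mem_of_aeval`, `mem_of_map_mem`. -/
theorem setupE {k κ ι β : Type} [Field k] [NumberField k] [Fintype κ] [Fintype ι] [Fintype β]
    {N n g b e : ℕ} {I' : Ideal (MvPolynomial (Fin N) (AlgebraicClosure k))}
    {I : Ideal (MvPolynomial κ k)} {f : (Fin N → AlgebraicClosure k) → κ → AlgebraicClosure k}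
    (hI : Var I) (hs : Smooth I g) (hI' : Var I')
    (h : Etale I' (I.map (map (algebraMap k (AlgebraicClosure k)))) f)
    {J : Ideal (MvPolynomial ι (AlgebraicClosure k))} {A : Type} [AddCommGroup A]
    {co : A → ι → AlgebraicClosure k} (hJ : Pts J co) (hm : HasModel co)
    {B : Fin N → Fin (n + 1) → MvPolynomial ι (AlgebraicClosure k)}
    (hB : ∀ i j, (B i j).IsHomogeneous b) {φ : ι → MvPolynomial (Fin N) (AlgebraicClosure k)}
    {χ : Fin (n + 1) → MvPolynomial (Fin N) (AlgebraicClosure k)}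
    (hb : Bir I' J φ χ fun i => lin (B i)) {F : β → MvPolynomial κ k}
    (hF : ∀ l, (F l).IsHomogeneous e)
    (hF' : Mono J (aeval (fun i => lin (B i)) '' pull I' f F)) :
    ∃ (K : IntermediateField k (AlgebraicClosure k)) (_ : NumberField K) (m b' : ℕ)
      (V : AV K (Fin m)) (I₁ : Ideal (MvPolynomial (Fin N) K))
      (B' : Fin N → Fin (n + 1) → MvPolynomial (Fin m) K) (φ' : Fin m → MvPolynomial (Fin N) K)
      (χ' : Fin (n + 1) → MvPolynomial (Fin N) K) (T : Type) (_ : Fintype T) (d D : ℕ)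
      (π : T → κ → MvPolynomial (Fin N) K) (a : ℕ) (C : ℝ), Var I₁ ∧ Smooth I₁ g ∧
      (∀ i j, (B' i j).IsHomogeneous b') ∧ Bir I₁ V.I φ' χ' (fun i => lin (B' i)) ∧
      Cov I₁ (up K I) d π ∧ (∀ t t' i j, π t i * π t' j - π t j * π t' i ∈ I₁) ∧
      (∀ t, (∃ l, π t l ∉ I₁) → ∀ (P : MvPolynomial κ k) m, P.IsHomogeneous m →
        (aeval (π t) P ∈ I₁ ↔ P ∈ I)) ∧
      Split V.I ((d + 1) * e + D) (fun p : (T × β) × (Fin D → Fin N) =>
        aeval (fun i => lin (B' i)) (aeval (π p.1.1) (F p.1.2) * ∏ i, X (p.2 i))) ∧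
      ∀ (H : MvPolynomial (Fin N) K) (t : ℕ), H.IsHomogeneous t → H ∉ I₁ →
      ∃ (Θ : MvPolynomial κ k) (t' : ℕ), Θ.IsHomogeneous t' ∧ Θ ∉ I ∧ ∀ x : κ → k, x ≠ 0 →
        (∀ P ∈ I, eval x P = 0) → eval x Θ ≠ 0 → ∃ (y : Fin N → K) (s : T → K), y ≠ 0 ∧
        (∀ P ∈ I₁, eval y P = 0) ∧ eval y H ≠ 0 ∧
        (∀ t i, eval y (π t i) = s t * algebraMap k K (x i)) ∧
        logHeight y ≤ a * logHeight (fun i => algebraMap k K (x i)) + C := by
  obtain ⟨m, J', co', Φ, h1, h2, h3, h4⟩ := hm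
  have : Nonempty A := ⟨0⟩
  obtain ⟨a₀, b₀, i1, i2⟩ := hJ.birat h1 h3 h4
  have hb' := hb.trans hI'.isPrime hJ.prime h1.prime hJ.exists_X i1 i2
  obtain ⟨b₁, hb₁⟩ : ∃ b, X b ∉ I' := by
    by_contra! hc
    obtain ⟨i, hi⟩ := hb.id.1
    exact hi (hb.map_pr _ (by simpa only [aeval_X] using hb.map _ (hc i)))
  obtain ⟨T, hT, d, π, c1, c2⟩ := st_family h
  have hp := mn_notMem hJ.prime hb
  have h0 := fun p : T × β => se_psi hB (se_hom (hF p.2) (c1 p.1).hom)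
  obtain ⟨D, hD⟩ := (Mono.atlas hI' ⟨b₁, hb₁⟩ hJ.prime hB hb.map hp c1 c2 hF hF').split hJ.prime
    hB hp h0
  obtain ⟨W, W1, W2⟩ := (hD.tw hJ.prime i1 i2).fin
  obtain ⟨db, eb⟩ := i2.hom
  have hB₀ := fun i j => (hB i j).aeval b₀ eb
  simp only [map_mul, map_prod, comp_aeval_apply (fun i => lin (B i)) (tw b₀ n), desc_lin] at hb' W2
  generalize (fun l => aeval φ (a₀ l)) = φ₀ at hb'
  obtain ⟨L, _, Θ₁, t₁, a, l1, l2, l3⟩ := lift_pt (k := k) h hI' hI.prime (Ds.hom_map hI.hom) hb₁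
  obtain ⟨s, hs'⟩ : I'.FG := IsNoetherian.noetherian I'
  obtain ⟨s', hs''⟩ : J'.FG := IsNoetherian.noetherian J'
  have := W1.to_subtype
  obtain ⟨K₁, _, k1, f1⟩ := ex_field L (Sum.elim (Sum.elim (Subtype.val : s → _) (Sum.elim φ₀ χ))
    fun p : T × κ => π p.1 p.2)
  obtain ⟨K₂, _, k2, f2⟩ := ex_field K₁ (Sum.elim (Sum.elim (Subtype.val : s' → _)
    (Subtype.val : W → _)) fun p : Fin N × Fin (n + 1) => aeval b₀ (B p.1 p.2))
  obtain ⟨K, _, k3, f3⟩ := ex_field K₂ fun p : Fin m × Fin m => Φ p.1 p.2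
  have : NumberField K := NumberField.of_module_finite k K
  choose φ' hφ using fun j => f1 K (k2.trans k3) (.inl (.inr (.inl j)))
  choose χ' hχ using fun j => f1 K (k2.trans k3) (.inl (.inr (.inr j)))
  choose π' hπ using fun t i => f1 K (k2.trans k3) (.inr (t, i))
  choose B' hB' using fun i j => f2 K k3 (.inr (i, j))
  choose Φ' hΦ using fun a b => f3 K le_rfl (a, b)
  simp only [Sum.elim_inr] at hB'
  obtain rfl : φ₀ = fun j => map (algebraMap K _) (φ' j) := (funext hφ).symm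
  obtain rfl : χ = fun j => map (algebraMap K _) (χ' j) := (funext hχ).symm
  obtain rfl : π = fun t i => map (algebraMap K _) (π' t i) := (funext₂ hπ).symm
  obtain rfl : Φ = fun a b => map (algebraMap K _) (Φ' a b) := (funext₂ hΦ).symm
  have m1 := dn_map (K := K) hs'.symm fun P hP => f1 K (k2.trans k3) (.inl (.inl ⟨P, hP⟩))
  have m2 := dn_map (K := K) hs''.symm fun P hP => f2 K k3 (.inl (.inl ⟨P, hP⟩))
  obtain ⟨V, hV⟩ := Et.exists_model h1 h2 m2
  obtain ⟨C, hC⟩ := l3 K ((k1.trans k2).trans k3)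
  have e0 : ∀ t (P : MvPolynomial κ k), map (algebraMap K (AlgebraicClosure k)) (aeval (π' t) P) =
      aeval (fun i => map (algebraMap K (AlgebraicClosure k)) (π' t i)) P := fun t =>
    comp_aeval_apply (π' t) (mapAlgHom (IsScalarTower.toAlgHom k K (AlgebraicClosure k)))
  refine ⟨K, this, m, db * b, V, dn K I', B', φ', χ', T, hT, d, D, π',
    a, C, var_dn hI' m1, smooth_dn (fun y y0 hy => ?_) m1,
    fun i j => wh_of_map (Ω := AlgebraicClosure k) ((hB' i j).symm ▸ hB₀ i j),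
    hV ▸ bir_dn m2 (by simpa only [desc_map, hB'] using hb'),
    cov_dn h hI' hI ⟨b₁, hb₁⟩ m1 c1 c2, fun t t' i j => ?_, fun t ht P r hP => ?_,
    hV ▸ W2 K (fun P hP => f2 K k3 (.inl (.inr ⟨P, hP⟩))) m2 _ fun p => ?_, fun H t hH H0 => ?_⟩
  · have h5 := (zero_map (K := AlgebraicClosure k)).1 (h.map y y0 hy).2
    rw [h.rank y0 hy, tsp_map h5]
    exact hs _ (h.map y y0 hy).1 h5
  · simpa only [mem_dn, map_sub, map_mul] using (c1 t).prop hI' ⟨b₁, hb₁⟩ (c1 t') i j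
  · rw [mem_dn, e0, ← aeval_map_algebraMap (AlgebraicClosure k)]
    exact ⟨fun h5 => mem_of_map_mem (h.mem_of_aeval hI'
      (up_eq (K := AlgebraicClosure k) I ▸ var_up hI) (c1 t) ht (hP.map _) h5), fun h5 =>
      h.map_mem hI' ⟨b₁, hb₁⟩ (Ds.hom_map hI.hom) (c1 t) _ (Ideal.mem_map_of_mem _ h5)⟩
  · refine (map_bind₁ _ _ _).trans ?_
    simp only [desc_map, hB', map_mul, map_prod, map_X, bind₁_X_right, e0]
    rfl
  obtain ⟨Θ₂, t₂, n1, n2, n3⟩ := alg_ne h hI' (Ds.hom_map hI.hom) hb₁ (hH.map _) H0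
  obtain ⟨Θ, u1, u2, u3⟩ := st_theta (l1.mul n1) fun e => (hI.prime.mem_or_mem e).elim l2 n2
  refine ⟨Θ, _, u1, u2, fun x x0 xz xΘ => ?_⟩
  have h5 := u3 x xΘ
  rw [map_mul, mul_ne_zero_iff] at h5
  obtain ⟨y, y1, y2, y3⟩ := hC x x0 ((zero_map (K := AlgebraicClosure k)).2 (tan3_zero xz)) h5.1
  have x0' : (fun i => algebraMap k (AlgebraicClosure k) (x i)) ≠ 0 := fun e =>
    x0 (funext fun a => (map_eq_zero _).1 (congrFun e a))
  choose σ hσ using fun t => st_pt (c1 t) x0 y2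
  exact ⟨y, σ, Function.ne_iff.2 ⟨b₁, y1.trans_ne one_ne_zero⟩,
    fun P hP => (map_eq_zero _).1 ((ev_map y P).symm.trans (y2.2.1 _ hP)),
    fun e => n3 _ _ x0' y2 (by rw [y1, map_one]) h5.2 (by rw [ev_map, e, map_zero]), hσ, y3⟩

end Pool.Agent.Lib.MP_8865d3_nt.Ae
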